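import Pool.Agent.Lib.MP_ed9a33_co.Defs

/-!
Menger's theorem for finite digraphs, set version (Göring's proof).
-/

set_option autoImplicit false

namespace Pool.Agent.Lib.MP_ed9a33_co

variable {V : Type*}

namespace Menger

/-- Adjacency given by a finite set of arcs. -/
def Ar (E : Finset (V × V)) (a b : V) : Prop := (a, b) ∈ E

/-- Paths from `A` to `B`. -/
def IsW (R : V → V → Prop) (A B : Finset V) (p : List V) : Prop :=
  p.IsChain R ∧ p.Nodup ∧ (∃ a ∈ A, p.head? = some a) ∧ (∃ b ∈ B, p.getLast? = some b)

theorem rch_mono {R R' : V → V → Prop} {X X' : Finset V} (hR : ∀ a b, R a b → R' a b)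
    (hX : X' ⊆ X) {a b : V} (h : Rch R X a b) : Rch R' X' a b :=
  Relation.ReflTransGen.mono (r := fun x y => R x y ∧ y ∉ X) (p := fun x y => R' x y ∧ y ∉ X')
    (fun _ _ h => ⟨hR _ _ h.1, fun h' => h.2 (hX h')⟩) _ _ h

theorem rch_end {R : V → V → Prop} {X : Finset V} {a b : V} (h : Rch R X a b) :
    b = a ∨ b ∉ X := by
  induction h with
  | refl => exact Or.inl rfl
  | tail _ h _ => exact Or.inr h.2

theorem rch_of_chain {R : V → V → Prop} {S : Finset V} (l : List V) : ∀ (v b : V),
    (v :: l).IsChain R → (∀ u ∈ l, u ∉ S) → (v :: l).getLast? = some b → Rch R S v b := by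
  induction l with
  | nil =>
    intro v b _ _ h
    simp at h
    subst h
    exact Relation.ReflTransGen.refl
  | cons w l ih =>
    intro v b hc hS h
    rw [List.isChain_cons_cons] at hc
    have h1 : (w :: l).getLast? = some b := by
      rw [List.getLast?_cons_cons] at h
      exact h
    exact Relation.ReflTransGen.head ⟨hc.1, hS w (by simp)⟩
      (ih w b hc.2 (fun u hu => hS u (by simp [hu])) h1)

/-- A vertex of a path whose predecessors avoid `S` is reachable. -/
theorem rch_of_prefix {R : V → V → Prop} {S : Finset V} {l₁ l₂ : List V} {v a : V}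
    (hc : (l₁ ++ v :: l₂).IsChain R) (ha : (l₁ ++ v :: l₂).head? = some a)
    (h1 : ∀ u ∈ l₁, u ∉ S) (hv : v ∉ S) : a ∉ S ∧ Rch R S a v := by
  cases l₁ with
  | nil =>
    simp at ha
    subst ha
    exact ⟨hv, Relation.ReflTransGen.refl⟩
  | cons w l =>
    simp at ha
    subst ha
    refine ⟨h1 w (by simp), rch_of_chain (l ++ [v]) w v ?_ ?_ ?_⟩
    · have : (w :: l ++ v :: l₂) = (w :: (l ++ [v])) ++ l₂ := by simp
      rw [this] at hc
      exact (List.isChain_append.1 hc).1
    · intro u hu
      rcases List.mem_append.1 hu with hu | hu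
      · exact h1 u (by simp [hu])
      · rw [List.mem_singleton] at hu
        subst hu
        exact hv
    · have e1 : w :: (l ++ [v]) = (w :: l) ++ [v] := rfl
      rw [e1, List.getLast?_append]
      rfl

theorem rch_of_suffix {R : V → V → Prop} {S : Finset V} {l₁ l₂ : List V} {v b : V}
    (hc : (l₁ ++ v :: l₂).IsChain R) (hb : (l₁ ++ v :: l₂).getLast? = some b)
    (h1 : ∀ u ∈ l₂, u ∉ S) : Rch R S v b := by
  refine rch_of_chain l₂ v b (List.isChain_append.1 hc).2.1 h1 ?_
  rw [List.getLast?_append_of_ne_nil _ (by simp)] at hb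
  exact hb

/-- In a family of `k` disjoint lists with one marked vertex each in the `k`-set `T`, every element
of `T` is marked. -/
theorem marks {k : ℕ} {P : Fin k → List V} {f : Fin k → V} {T : Finset V} (hT : T.card = k)
    (hd : ∀ i j, i ≠ j → (P i).Disjoint (P j)) (hf : ∀ i, f i ∈ P i) (hfT : ∀ i, f i ∈ T) :
    Function.Injective f ∧ (∀ t ∈ T, ∃ i, f i = t) ∧ ∀ i, ∀ v ∈ P i, v ∈ T → v = f i := by
  classical
  have hinj : Function.Injective f := by
    intro i j hij
    by_contra hne
    exact hd i j hne (hf i) (hij ▸ hf j)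
  have hsurj : ∀ t ∈ T, ∃ i, f i = t := by
    have himg : Finset.univ.image f = T := by
      apply Finset.eq_of_subset_of_card_le
      · intro t ht
        obtain ⟨i, -, rfl⟩ := Finset.mem_image.1 ht
        exact hfT i
      · rw [Finset.card_image_of_injective _ hinj, Finset.card_univ, Fintype.card_fin, hT]
    intro t ht
    rw [← himg] at ht
    obtain ⟨i, -, h⟩ := Finset.mem_image.1 ht
    exact ⟨i, h⟩
  refine ⟨hinj, hsurj, ?_⟩
  intro i v hv hvT
  obtain ⟨j, rfl⟩ := hsurj v hvT
  by_contra hne
  have hij : i ≠ j := by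
    rintro rfl
    exact hne rfl
  exact hd i j hij hv (hf j)

theorem fan_left [DecidableEq V] {E : Finset (V × V)} {x y : V} {A B S : Finset V} {k : ℕ}
    (h : Fan (Ar (insert (x, y) E)) A B k)
    (hsep : ∀ a ∈ A, a ∉ S → ∀ b ∈ B, ¬ Rch (Ar E) S a b) :
    Fan (Ar E) A (insert x S) k := by
  intro X hX
  obtain ⟨a, haA, haX, b, hb, hr⟩ := h X hX
  have key : ∀ c, Rch (Ar (insert (x, y) E)) X a c →
      (∃ t ∈ insert x S, Rch (Ar E) X a t) ∨
      (a ∉ insert x S ∧ Rch (Ar E) (X ∪ insert x S) a c) := by
    intro c hc
    induction hc with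
    | refl =>
      by_cases ha : a ∈ insert x S
      · exact Or.inl ⟨a, ha, Relation.ReflTransGen.refl⟩
      · exact Or.inr ⟨ha, Relation.ReflTransGen.refl⟩
    | @tail c d _ hcd ih =>
      rcases ih with ih | ⟨h1, h2⟩
      · exact Or.inl ih
      · have hcT : c ∉ insert x S := by
          rcases rch_end h2 with rfl | h3
          · exact h1
          · exact fun h4 => h3 (Finset.mem_union_right _ h4)
        have hE : Ar E c d := by
          rcases Finset.mem_insert.1 hcd.1 with h5 | h5
          · exfalso
            apply hcT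
            rw [Prod.mk.injEq] at h5
            rw [h5.1]
            exact Finset.mem_insert_self _ _
          · exact h5
        by_cases hd : d ∈ insert x S
        · left
          refine ⟨d, hd, ?_⟩
          have h3 : Rch (Ar E) X a c :=
            rch_mono (fun _ _ h => h) Finset.subset_union_left h2
          exact Relation.ReflTransGen.tail h3 ⟨hE, hcd.2⟩
        · right
          refine ⟨h1, Relation.ReflTransGen.tail h2 ⟨hE, ?_⟩⟩
          rw [Finset.mem_union]
          rintro (h6 | h6)
          · exact hcd.2 h6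
          · exact hd h6
  rcases key b hr with ⟨t, ht, hrt⟩ | ⟨h1, h2⟩
  · exact ⟨a, haA, haX, t, ht, hrt⟩
  · exfalso
    refine hsep a haA (fun h3 => h1 (Finset.mem_insert_of_mem h3)) b hb ?_
    exact rch_mono (fun _ _ h => h)
      ((Finset.subset_insert x S).trans Finset.subset_union_right) h2

theorem fan_right [DecidableEq V] {E : Finset (V × V)} {x y : V} {A B S : Finset V} {k : ℕ}
    (h : Fan (Ar (insert (x, y) E)) A B k)
    (hsep : ∀ a ∈ A, a ∉ S → ∀ b ∈ B, ¬ Rch (Ar E) S a b) :
    Fan (Ar E) (insert y S) B k := by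
  intro X hX
  obtain ⟨a, haA, haX, b, hb, hr⟩ := h X hX
  have key : ∀ c, Rch (Ar (insert (x, y) E)) X c b → c ∉ X →
      (∃ t ∈ insert y S, t ∉ X ∧ Rch (Ar E) X t b) ∨
      (c ∉ insert y S ∧ Rch (Ar E) (X ∪ insert y S) c b) := by
    intro c hc
    induction hc using Relation.ReflTransGen.head_induction_on with
    | refl =>
      intro hbX
      by_cases ha : b ∈ insert y S
      · exact Or.inl ⟨b, ha, hbX, Relation.ReflTransGen.refl⟩
      · exact Or.inr ⟨ha, Relation.ReflTransGen.refl⟩
    | @head c d hcd _ ih =>
      intro hcX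
      rcases ih hcd.2 with ih | ⟨h1, h2⟩
      · exact Or.inl ih
      · have hE : Ar E c d := by
          rcases Finset.mem_insert.1 hcd.1 with h5 | h5
          · exfalso
            apply h1
            rw [Prod.mk.injEq] at h5
            rw [h5.2]
            exact Finset.mem_insert_self _ _
          · exact h5
        by_cases hc' : c ∈ insert y S
        · left
          refine ⟨c, hc', hcX, ?_⟩
          have h3 : Rch (Ar E) X d b :=
            rch_mono (fun _ _ h => h) Finset.subset_union_left h2
          exact Relation.ReflTransGen.head ⟨hE, hcd.2⟩ h3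
        · right
          refine ⟨hc', Relation.ReflTransGen.head ⟨hE, ?_⟩ h2⟩
          rw [Finset.mem_union]
          rintro (h6 | h6)
          · exact hcd.2 h6
          · exact h1 h6
  rcases key a hr haX with ⟨t, ht, htX, hrt⟩ | ⟨h1, h2⟩
  · exact ⟨t, ht, htX, b, hb, hrt⟩
  · exfalso
    refine hsep a haA (fun h3 => h1 (Finset.mem_insert_of_mem h3)) b hb ?_
    exact rch_mono (fun _ _ h => h)
      ((Finset.subset_insert y S).trans Finset.subset_union_right) h2

/-- The sizes of the two separating sets. -/
theorem card_left [DecidableEq V] {E : Finset (V × V)} {x y : V} {A B S : Finset V} {k : ℕ}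
    (h : Fan (Ar (insert (x, y) E)) A B k) (hS : S.card < k)
    (hsep : ∀ a ∈ A, a ∉ S → ∀ b ∈ B, ¬ Rch (Ar E) S a b) :
    (insert x S).card = k ∧ x ∉ S := by
  have h1 : k ≤ (insert x S).card := by
    by_contra hlt
    obtain ⟨a, haA, haX, b, hb, hr⟩ := h (insert x S) (not_le.1 hlt)
    refine hsep a haA (fun h3 => haX (Finset.mem_insert_of_mem h3)) b hb ?_
    have key : ∀ c, Rch (Ar (insert (x, y) E)) (insert x S) a c → Rch (Ar E) (insert x S) a c := by
      intro c hc
      induction hc with
      | refl => exact Relation.ReflTransGen.refl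
      | @tail c d _ hcd ih =>
        refine Relation.ReflTransGen.tail ih ⟨?_, hcd.2⟩
        rcases Finset.mem_insert.1 hcd.1 with h5 | h5
        · exfalso
          rw [Prod.mk.injEq] at h5
          rcases rch_end ih with h6 | h6
          · apply haX
            rw [← h6, h5.1]
            exact Finset.mem_insert_self _ _
          · apply h6
            rw [h5.1]
            exact Finset.mem_insert_self _ _
        · exact h5
    exact rch_mono (fun _ _ h => h) (Finset.subset_insert x S) (key b hr)
  have h2 : x ∉ S := by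
    intro h3
    rw [Finset.insert_eq_of_mem h3] at h1
    omega
  refine ⟨?_, h2⟩
  rw [Finset.card_insert_of_notMem h2] at h1 ⊢
  omega

theorem card_right [DecidableEq V] {E : Finset (V × V)} {x y : V} {A B S : Finset V} {k : ℕ}
    (h : Fan (Ar (insert (x, y) E)) A B k) (hS : S.card < k)
    (hsep : ∀ a ∈ A, a ∉ S → ∀ b ∈ B, ¬ Rch (Ar E) S a b) :
    (insert y S).card = k ∧ y ∉ S := by
  have h1 : k ≤ (insert y S).card := by
    by_contra hlt
    obtain ⟨a, haA, haX, b, hb, hr⟩ := h (insert y S) (not_le.1 hlt)
    refine hsep a haA (fun h3 => haX (Finset.mem_insert_of_mem h3)) b hb ?_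
    have key : ∀ c, Rch (Ar (insert (x, y) E)) (insert y S) a c → Rch (Ar E) (insert y S) a c := by
      intro c hc
      induction hc with
      | refl => exact Relation.ReflTransGen.refl
      | @tail c d _ hcd ih =>
        refine Relation.ReflTransGen.tail ih ⟨?_, hcd.2⟩
        rcases Finset.mem_insert.1 hcd.1 with h5 | h5
        · exfalso
          rw [Prod.mk.injEq] at h5
          apply hcd.2
          rw [h5.2]
          exact Finset.mem_insert_self _ _
        · exact h5
    exact rch_mono (fun _ _ h => h) (Finset.subset_insert y S) (key b hr)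
  have h2 : y ∉ S := by
    intro h3
    rw [Finset.insert_eq_of_mem h3] at h1
    omega
  refine ⟨?_, h2⟩
  rw [Finset.card_insert_of_notMem h2] at h1 ⊢
  omega

/-- The gluing step. -/
theorem glue [DecidableEq V] {R R' : V → V → Prop} {x y : V} {A B S : Finset V} {k : ℕ}
    (hRR : ∀ a b, R a b → R' a b) (hxy : R' x y) (hy : y ∉ S)
    (hcx : (insert x S).card = k) (hcy : (insert y S).card = k)
    (hsep : ∀ a ∈ A, a ∉ S → ∀ b ∈ B, ¬ Rch R S a b)
    {P Q : Fin k → List V} (hP : ∀ i, IsW R A (insert x S) (P i))
    (hPd : ∀ i j, i ≠ j → (P i).Disjoint (P j))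
    (hQ : ∀ i, IsW R (insert y S) B (Q i)) (hQd : ∀ i j, i ≠ j → (Q i).Disjoint (Q j)) :
    ∃ W : Fin k → List V, (∀ i, IsW R' A B (W i)) ∧ ∀ i j, i ≠ j → (W i).Disjoint (W j) := by
  choose pc pn pa pl using hP
  choose a haA ha using pa
  choose l hlT hl using pl
  choose qc qn qh ql using hQ
  choose h hhT hh using qh
  choose b hbB hb using ql
  have hlP : ∀ i, l i ∈ P i := fun i => List.mem_of_getLast? (hl i)
  have hhQ : ∀ i, h i ∈ Q i := fun i => List.mem_of_head? (hh i)
  obtain ⟨linj, -, luniq⟩ := marks hcx hPd hlP hlT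
  obtain ⟨-, hsurj, huniq⟩ := marks hcy hQd hhQ hhT
  have common : ∀ i j v, v ∈ P i → v ∈ Q j → v ∈ S := by
    intro i j v hvP hvQ
    by_contra hvS
    obtain ⟨l₁, l₂, hl12⟩ := List.append_of_mem hvP
    obtain ⟨m₁, m₂, hm12⟩ := List.append_of_mem hvQ
    have h1 : ∀ u ∈ l₁, u ∉ S := by
      intro u hu huS
      have hu1 : u = l i := luniq i u (by rw [hl12]; simp [hu]) (Finset.mem_insert_of_mem huS)
      have hu2 : l i ∈ v :: l₂ := by
        have := hl i
        rw [hl12, List.getLast?_append_of_ne_nil _ (by simp)] at this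
        exact List.mem_of_getLast? this
      have hnd := pn i
      rw [hl12, List.nodup_append] at hnd
      exact hnd.2.2 u hu (l i) hu2 hu1
    have h2 : ∀ u ∈ m₂, u ∉ S := by
      intro u hu huS
      have hu1 : u = h j := huniq j u (by rw [hm12]; simp [hu]) (Finset.mem_insert_of_mem huS)
      have hnd := qn j
      have hhj := hh j
      rw [hm12] at hnd hhj
      cases m₁ with
      | nil =>
        simp at hhj
        rw [List.nil_append, List.nodup_cons] at hnd
        apply hnd.1
        rw [hhj, ← hu1]
        exact hu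
      | cons w m =>
        simp at hhj
        rw [List.cons_append, List.nodup_cons] at hnd
        apply hnd.1
        rw [hhj, ← hu1]
        simp [hu]
    have pci := pc i
    have hai := ha i
    rw [hl12] at pci hai
    obtain ⟨h3, h4⟩ := rch_of_prefix pci hai h1 hvS
    have qcj := qc j
    have hbj := hb j
    rw [hm12] at qcj hbj
    have h5 := rch_of_suffix qcj hbj h2
    exact hsep (a i) (haA i) h3 (b j) (hbB j) (Relation.ReflTransGen.trans h4 h5)
  -- the matching between the two families
  have hj : ∀ i, ∃ j, h j = if l i = x then y else l i := by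
    intro i
    apply hsurj
    split_ifs with hi
    · exact Finset.mem_insert_self _ _
    · rcases Finset.mem_insert.1 (hlT i) with h1 | h1
      · exact absurd h1 hi
      · exact Finset.mem_insert_of_mem h1
  choose j hj using hj
  have liS : ∀ i, l i ≠ x → l i ∈ S := by
    intro i hi
    rcases Finset.mem_insert.1 (hlT i) with h1 | h1
    · exact absurd h1 hi
    · exact h1
  have jinj : ∀ i i', j i = j i' → i = i' := by
    intro i i' hii
    apply linj
    have h1 := hj i
    have h2 := hj i'
    rw [hii, h2] at h1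
    by_cases c1 : l i = x
    · by_cases c2 : l i' = x
      · rw [c1, c2]
      · rw [if_pos c1, if_neg c2] at h1
        exfalso
        apply hy
        rw [← h1]
        exact liS i' c2
    · by_cases c2 : l i' = x
      · rw [if_neg c1, if_pos c2] at h1
        exfalso
        apply hy
        rw [h1]
        exact liS i c1
      · rw [if_neg c1, if_neg c2] at h1
        exact h1.symm
  -- decomposition of `Q (j i)`
  have hcons : ∀ i, Q (j i) = h (j i) :: (Q (j i)).tail := by
    intro i
    have := hh (j i)
    cases hq : Q (j i) with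
    | nil => rw [hq] at this; simp at this
    | cons w m => rw [hq] at this; simp at this; simp [this]
  set r : Fin k → List V := fun i => if l i = x then Q (j i) else (Q (j i)).tail with hr
  have rsub : ∀ i, ∀ v ∈ r i, v ∈ Q (j i) := by
    intro i v hv
    simp only [hr] at hv
    split_ifs at hv
    · exact hv
    · exact List.mem_of_mem_tail hv
  -- a vertex of `P i` and of `r i'`
  have cross : ∀ i i' v, v ∈ P i → v ∈ r i' → False := by
    intro i i' v hv hv'
    have h1 : v ∈ S := common i (j i') v hv (rsub i' v hv')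
    have h2 : v = h (j i') := huniq (j i') v (rsub i' v hv') (Finset.mem_insert_of_mem h1)
    rw [hj i'] at h2
    by_cases c : l i' = x
    · rw [if_pos c] at h2
      rw [h2] at h1
      exact hy h1
    · rw [if_neg c] at h2
      have h3 := hcons i'
      have h4 := qn (j i')
      rw [h3, List.nodup_cons, hj i', if_neg c, ← h2] at h4
      simp only [hr, if_neg c] at hv'
      exact h4.1 hv'
  refine ⟨fun i => P i ++ r i, ?_, ?_⟩
  · intro i
    refine ⟨?_, ?_, ?_, ?_⟩
    · rw [List.isChain_append]
      refine ⟨(pc i).imp hRR, ?_, ?_⟩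
      · simp only [hr]
        split_ifs
        · exact (qc (j i)).imp hRR
        · exact ((qc (j i)).imp hRR).tail
      · intro u hu w hw
        rw [hl i, Option.mem_some_iff] at hu
        subst hu
        simp only [hr] at hw
        by_cases c : l i = x
        · rw [if_pos c, hh (j i), Option.mem_some_iff, hj i, if_pos c] at hw
          rw [c, ← hw]
          exact hxy
        · rw [if_neg c] at hw
          have h3 := hcons i
          have h4 := (qc (j i)).imp hRR
          rw [h3, hj i, if_neg c, List.isChain_cons] at h4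
          exact h4.1 w hw
    · rw [List.nodup_append]
      refine ⟨pn i, ?_, ?_⟩
      · simp only [hr]
        split_ifs
        · exact qn (j i)
        · exact (qn (j i)).tail
      · rintro u hu w hw rfl
        exact cross i i u hu hw
    · refine ⟨a i, haA i, ?_⟩
      rw [List.head?_append, ha i]
      rfl
    · refine ⟨b (j i), hbB _, ?_⟩
      have h5 := hb (j i)
      by_cases c : l i = x
      · simp only [hr, if_pos c]
        rw [List.getLast?_append, h5]
        rfl
      · simp only [hr, if_neg c]
        rw [hcons i, List.getLast?_cons, hj i, if_neg c] at h5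
        rw [List.getLast?_append, hl i]
        cases hq : (Q (j i)).tail.getLast? with
        | none =>
          rw [hq] at h5
          simpa using h5
        | some w =>
          rw [hq] at h5
          simpa using h5
  · intro i i' hne v hv hv'
    rcases List.mem_append.1 hv with h1 | h1
    · rcases List.mem_append.1 hv' with h2 | h2
      · exact hPd i i' hne h1 h2
      · exact cross i i' v h1 h2
    · rcases List.mem_append.1 hv' with h2 | h2
      · exact cross i' i v h2 h1
      · have h3 : j i ≠ j i' := fun h4 => hne (jinj i i' h4)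
        exact hQd _ _ h3 (rsub i v h1) (rsub i' v h2)

theorem main [DecidableEq V] (k : ℕ) (E : Finset (V × V)) : ∀ A B : Finset V,
    Fan (Ar E) A B k →
    ∃ P : Fin k → List V, (∀ i, IsW (Ar E) A B (P i)) ∧
      ∀ i j, i ≠ j → (P i).Disjoint (P j) := by
  induction E using Finset.induction_on with
  | empty =>
    intro A B h
    have hcard : k ≤ (A ∩ B).card := by
      by_contra hlt
      obtain ⟨a, haA, haX, b, hb, hr⟩ := h (A ∩ B) (not_le.1 hlt)
      have : b = a := by
        rcases Relation.ReflTransGen.cases_tail hr with h1 | ⟨c, -, h1⟩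
        · exact h1
        · exact absurd h1.1 (Finset.notMem_empty _)
      subst this
      exact haX (Finset.mem_inter.2 ⟨haA, hb⟩)
    obtain ⟨T, hT, hTc⟩ := Finset.exists_subset_card_eq hcard
    have e : Fin k ≃ T := (Finset.equivFinOfCardEq hTc).symm
    refine ⟨fun i => [(e i : V)], ?_, ?_⟩
    · intro i
      have := Finset.mem_inter.1 (hT (e i).2)
      exact ⟨List.isChain_singleton _, List.nodup_singleton _, ⟨e i, this.1, rfl⟩,
        ⟨e i, this.2, rfl⟩⟩
    · intro i j hij v hv hv'
      rw [List.mem_singleton] at hv hv'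
      apply hij
      apply e.injective
      apply Subtype.ext
      rw [← hv, ← hv']
  | insert e E _ ih =>
    obtain ⟨x, y⟩ := e
    intro A B h
    by_cases h' : Fan (Ar E) A B k
    · obtain ⟨P, hP, hd⟩ := ih A B h'
      refine ⟨P, fun i => ?_, hd⟩
      obtain ⟨h1, h2, h3, h4⟩ := hP i
      exact ⟨h1.imp fun a b hab => Finset.mem_insert_of_mem hab, h2, h3, h4⟩
    · unfold Fan at h'
      push Not at h'
      obtain ⟨S, hS, hsep'⟩ := h'
      have hsep : ∀ a ∈ A, a ∉ S → ∀ b ∈ B, ¬ Rch (Ar E) S a b := hsep'
      obtain ⟨cx, -⟩ := card_left h hS hsep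
      obtain ⟨cy, hy⟩ := card_right h hS hsep
      obtain ⟨P, hP, hPd⟩ := ih A (insert x S) (fan_left h hsep)
      obtain ⟨Q, hQ, hQd⟩ := ih (insert y S) B (fan_right h hsep)
      exact glue (R := Ar E) (R' := Ar (insert (x, y) E))
        (fun a b hab => Finset.mem_insert_of_mem hab) (Finset.mem_insert_self _ _) hy cx cy
        hsep hP hPd hQ hQd

/-- Cutting a list at its first element in `B`. -/
theorem cut (B : Finset V) (p : List V) : (∃ b ∈ B, p.getLast? = some b) →
    ∃ p', p' <+: p ∧ p' ≠ [] ∧ (∃ b ∈ B, p'.getLast? = some b) ∧ ∀ v ∈ p'.dropLast, v ∉ B := by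
  classical
  induction p with
  | nil => rintro ⟨b, -, hb⟩; simp at hb
  | cons v p ih =>
    rintro ⟨b, hbB, hb⟩
    by_cases hv : v ∈ B
    · exact ⟨[v], ⟨p, rfl⟩, by simp, ⟨v, hv, rfl⟩, by simp⟩
    · cases p with
      | nil =>
        simp at hb
        subst hb
        exact absurd hbB hv
      | cons w p =>
        rw [List.getLast?_cons_cons] at hb
        obtain ⟨p', h1, h2, ⟨b', h3, h4⟩, h5⟩ := ih ⟨b, hbB, hb⟩
        cases p' with
        | nil => exact absurd rfl h2
        | cons u q =>
          refine ⟨v :: u :: q, ?_, by simp, ⟨b', h3, ?_⟩, ?_⟩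
          · exact (List.prefix_cons_inj v).2 h1
          · rw [List.getLast?_cons_cons]; exact h4
          · intro t ht
            rw [List.dropLast_cons_cons] at ht
            rcases List.mem_cons.1 ht with rfl | ht
            · exact hv
            · exact h5 t ht

end Menger

theorem menger [Fintype V] [DecidableEq V] (Adj : V → V → Prop) (A B : Finset V) (k : ℕ)
    (h : Fan Adj A B k) :
    ∃ P : Fin k → List V, (∀ i, IsPath Adj A B (P i)) ∧ ∀ i j, i ≠ j → (P i).Disjoint (P j) := by
  classical
  set E : Finset (V × V) := Finset.univ.filter fun e => Adj e.1 e.2 with hE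
  have hAE : ∀ a b, Menger.Ar E a b ↔ Adj a b := by
    intro a b
    simp [Menger.Ar, hE]
  have h' : Fan (Menger.Ar E) A B k := by
    intro X hX
    obtain ⟨a, ha, haX, b, hb, hr⟩ := h X hX
    exact ⟨a, ha, haX, b, hb,
      Menger.rch_mono (fun a b hab => (hAE a b).2 hab) (Finset.Subset.refl _) hr⟩
  obtain ⟨P, hP, hd⟩ := Menger.main k E A B h'
  have hcut := fun i => Menger.cut B (P i) (hP i).2.2.2
  choose P' h1 h2 h3 h4 using hcut
  refine ⟨P', fun i => ?_, fun i j hij v hv hv' => ?_⟩
  · obtain ⟨c1, c2, ⟨a, haA, ha⟩, -⟩ := hP i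
    obtain ⟨t, ht⟩ := h1 i
    refine ⟨?_, c2.sublist (h1 i).sublist, ⟨a, haA, ?_⟩, h3 i, h4 i⟩
    · rw [← ht, List.isChain_append] at c1
      exact c1.1.imp fun a b hab => (hAE a b).1 hab
    · rw [← ht] at ha
      cases hp : P' i with
      | nil => exact absurd hp (h2 i)
      | cons w q =>
        rw [hp] at ha
        simpa using ha
  · exact hd i j hij ((h1 i).subset hv) ((h1 j).subset hv')

end Pool.Agent.Lib.MP_ed9a33_co
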