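import Mathlib

/-!
Definitions for `MP_ed9a33_co` (linear out-degree Mader number of oriented cycles):
walks, fans, zigzags (oriented closed walks made of legs with prescribed minimum lengths).
-/

set_option autoImplicit false

namespace Pool.Agent.Lib.MP_ed9a33_co

variable {V : Type*}

/-- Reachability avoiding `X` (the start vertex itself may lie in `X`). -/
def Rch (Adj : V → V → Prop) (X : Finset V) (a b : V) : Prop :=
  Relation.ReflTransGen (fun x y => Adj x y ∧ y ∉ X) a b

/-- No set of fewer than `k` vertices meets all walks from `A` to `B`. -/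
def Fan (Adj : V → V → Prop) (A B : Finset V) (k : ℕ) : Prop :=
  ∀ X : Finset V, X.card < k → ∃ a ∈ A, a ∉ X ∧ ∃ b ∈ B, Rch Adj X a b

/-- `p` is a path from `A` to `B` (given by its list of vertices) with only its last vertex
in `B`. -/
def IsPath (Adj : V → V → Prop) (A B : Finset V) (p : List V) : Prop :=
  p.IsChain Adj ∧ p.Nodup ∧ (∃ a ∈ A, p.head? = some a) ∧ (∃ b ∈ B, p.getLast? = some b) ∧
    (∀ v ∈ p.dropLast, v ∉ B)

/-- A fork: a walk `a, x` starting in `A` and a walk `b, x` starting in `B`, both ending in `x`. -/
def Fork (Adj : V → V → Prop) (A B : Finset V) (a : List V) (x : V) (b : List V) : Prop :=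
  (a ++ [x]).IsChain Adj ∧ (∃ y ∈ A, (a ++ [x]).head? = some y) ∧
    (b ++ [x]).IsChain Adj ∧ (∃ y ∈ B, (b ++ [x]).head? = some y)

/-- `Wk Adj u p v`: `u → p₀ → p₁ → ⋯ → v` is a walk with list of inner vertices `p`. -/
def Wk (Adj : V → V → Prop) (u : V) (p : List V) (v : V) : Prop :=
  (u :: (p ++ [v])).IsChain Adj

/-- Zigzags. A leg is a triple `(p, x, r)`: `p` the inner vertices in the direction of the arcs,
`x` the end of the leg in the order of traversal, `r` a lower bound for the number of arcs of the
leg. `Zig Adj true u l v`: starting in `u` forwards along the first leg, then backwards along the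
second, and so on, ending in `v`. `Zig Adj false u l v`: the same starting backwards. -/
def Zig (Adj : V → V → Prop) : Bool → V → List (List V × V × ℕ) → V → Prop
  | _, u, [], v => u = v
  | true, u, (p, x, r) :: l, v => Wk Adj u p x ∧ r ≤ p.length + 1 ∧ Zig Adj false x l v
  | false, u, (p, x, r) :: l, v => Wk Adj x p u ∧ r ≤ p.length + 1 ∧ Zig Adj true x l v

/-- All vertices of a zigzag except its first one. -/
def verts (l : List (List V × V × ℕ)) : List V := l.flatMap fun e => e.1 ++ [e.2.1]

/-- The requirements of a list of legs. -/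
def reqs (l : List (List V × V × ℕ)) : List ℕ := l.map fun e => e.2.2

/-- A closed zigzag without repeated vertices, starting forwards at the source `s`. -/
structure Cyc (Adj : V → V → Prop) (s : V) (l : List (List V × V × ℕ)) : Prop where
  zig : Zig Adj true s l s
  nodup : (verts l).Nodup
  even : Even l.length
  ne : l ≠ []

/-- The word of directions with blocks of lengths `rs`, starting with direction `b`. -/
def bits : Bool → List ℕ → List Bool
  | _, [] => []
  | b, r :: rs => List.replicate r b ++ bits (!b) rs

/-- The digraph `Adj` contains a subdivision of the orientation of the `k`-cycle with direction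
word `σ` (the conclusion of the frozen statement, for an arbitrary vertex type). -/
def Sub (Adj : V → V → Prop) (k : ℕ) (σ : ℕ → Bool) : Prop :=
  ∃ ℓ : ℕ → ℕ, ∃ p : ℕ → ℕ → V,
    (∀ i < k, 1 ≤ ℓ i ∧ p i (ℓ i) = p ((i + 1) % k) 0 ∧
      ∀ j < ℓ i, (σ i = true → Adj (p i j) (p i (j + 1))) ∧
                 (σ i = false → Adj (p i (j + 1)) (p i j))) ∧
    (∀ i i' j j' : ℕ, i < k → i' < k → j < ℓ i → j' < ℓ i' →
      p i j = p i' j' → i = i' ∧ j = j')

end Pool.Agent.Lib.MP_ed9a33_co
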