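import Pool.Agent.Lib.MP_ed9a33_co.Defs

/-!
# MP_ed9a33_co, module Forest: an in-forest with few collisions
-/

set_option autoImplicit false

namespace Pool.Agent.Lib.MP_ed9a33_co

variable {V : Type*}

namespace Forest

/-- The weight of a position. -/
def wt [DecidableEq V] (K : Finset V) (lev : V → ℕ) (n ℓ : ℕ) (v : V) : ℚ :=
  if v ∈ K then (2 * (lev v : ℚ) + 2 * ℓ) / n else 0

/-- The potential of a pair of positions. -/
def phi {Γ : Type*} [DecidableEq V] [DecidableEq Γ] (K W0 : Finset V) (lev : V → ℕ) (cell : V → Γ)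
    (n ℓ : ℕ) (x y : V) : ℚ :=
  if x = y then 1 else
    if x ∈ W0 ∧ y ∈ W0 then (if cell x = cell y then 1 else 0)
    else wt K lev n ℓ x + wt K lev n ℓ y

theorem phi_comm {Γ : Type*} [DecidableEq V] [DecidableEq Γ] (K W0 : Finset V) (lev : V → ℕ)
    (cell : V → Γ) (n ℓ : ℕ) (x y : V) :
    phi K W0 lev cell n ℓ x y = phi K W0 lev cell n ℓ y x := by
  unfold phi
  by_cases h : x = y
  · subst h; rfl
  · rw [if_neg h, if_neg (Ne.symm h)]
    by_cases h2 : x ∈ W0 ∧ y ∈ W0
    · rw [if_pos h2, if_pos h2.symm]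
      by_cases h3 : cell x = cell y
      · rw [if_pos h3, if_pos h3.symm]
      · rw [if_neg h3, if_neg (Ne.symm h3)]
    · rw [if_neg h2, if_neg (fun h => h2 h.symm), add_comm]

theorem wt_nonneg [DecidableEq V] (K : Finset V) (lev : V → ℕ) (n ℓ : ℕ) (v : V) :
    0 ≤ wt K lev n ℓ v := by
  unfold wt
  split_ifs
  · positivity
  · exact le_rfl

/-- The averaging inequality for one pair. -/
theorem avg {Γ : Type*} [DecidableEq V] [DecidableEq Γ] (K W0 : Finset V)
    (hKW : Disjoint K W0) (lev : V → ℕ) (cell : V → Γ) (n ℓ : ℕ)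
    (hcell : ∀ γ, (W0.filter fun y => cell y = γ).card ≤ ℓ) (hn : 0 < n) (v : V) (hv : v ∈ K)
    (C : Finset V)
    (hC : (C ⊆ W0 ∨ ∀ c ∈ C, c ∈ K ∧ lev c < lev v)) (hCn : n ≤ 2 * C.card)
    (y : V) (hy : y ∈ K ∨ y ∈ W0) (hyv : y ≠ v) :
    ∑ c ∈ C, phi K W0 lev cell n ℓ c y ≤ C.card * phi K W0 lev cell n ℓ v y := by
  have hn' : (0 : ℚ) < n := by exact_mod_cast hn
  have hCn' : (n : ℚ) ≤ 2 * C.card := by exact_mod_cast hCn
  have hvW : v ∉ W0 := fun h => Finset.disjoint_left.mp hKW hv h
  have hphiv : phi K W0 lev cell n ℓ v y = wt K lev n ℓ v + wt K lev n ℓ y := by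
    unfold phi
    rw [if_neg (Ne.symm hyv), if_neg (fun h => hvW h.1)]
  have hwv : wt K lev n ℓ v = (2 * (lev v : ℚ) + 2 * ℓ) / n := by
    unfold wt; rw [if_pos hv]
  have hwy := wt_nonneg K lev n ℓ y
  rw [hphiv]
  rcases hC with hC | hC
  · -- finisher
    have hwc : ∀ c ∈ C, wt K lev n ℓ c = 0 := by
      intro c hc
      unfold wt
      rw [if_neg (fun h => Finset.disjoint_left.mp hKW h (hC hc))]
    have hv2 : 2 * (ℓ : ℚ) / n ≤ wt K lev n ℓ v := by
      rw [hwv]
      have : (0 : ℚ) ≤ lev v := Nat.cast_nonneg _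
      gcongr
      linarith
    by_cases hyW : y ∈ W0
    · have h1 : ∀ c ∈ C, phi K W0 lev cell n ℓ c y = if cell c = cell y then 1 else 0 := by
        intro c hc
        unfold phi
        by_cases hcy : c = y
        · subst hcy; simp
        · rw [if_neg hcy, if_pos ⟨hC hc, hyW⟩]
      rw [Finset.sum_congr rfl h1, Finset.sum_boole]
      have h2 : (C.filter fun c => cell c = cell y).card ≤ ℓ :=
        (Finset.card_le_card (Finset.filter_subset_filter _ hC)).trans (hcell _)
      have h3 : ((C.filter fun c => cell c = cell y).card : ℚ) ≤ ℓ := by exact_mod_cast h2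
      calc ((C.filter fun c => cell c = cell y).card : ℚ) ≤ ℓ := h3
        _ = (n / 2) * (2 * (ℓ : ℚ) / n) := by field_simp
        _ ≤ C.card * (2 * (ℓ : ℚ) / n) := by
            apply mul_le_mul_of_nonneg_right _ (by positivity)
            linarith
        _ ≤ C.card * (wt K lev n ℓ v + wt K lev n ℓ y) := by
            apply mul_le_mul_of_nonneg_left _ (Nat.cast_nonneg _)
            linarith
    · have h1 : ∀ c ∈ C, phi K W0 lev cell n ℓ c y ≤ wt K lev n ℓ v + wt K lev n ℓ y := by
        intro c hc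
        have hcy : c ≠ y := by
          rintro rfl
          exact hyW (hC hc)
        unfold phi
        rw [if_neg hcy, if_neg (fun h => hyW h.2), hwc c hc]
        have := wt_nonneg K lev n ℓ v
        linarith
      calc ∑ c ∈ C, phi K W0 lev cell n ℓ c y
          ≤ ∑ c ∈ C, (wt K lev n ℓ v + wt K lev n ℓ y) := Finset.sum_le_sum h1
        _ = C.card * (wt K lev n ℓ v + wt K lev n ℓ y) := by rw [Finset.sum_const, nsmul_eq_mul]
  · -- mover
    have hCne : C.Nonempty := by
      rw [Finset.nonempty_iff_ne_empty]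
      rintro rfl
      simp at hCn
      omega
    obtain ⟨c₀, hc₀⟩ := hCne
    have hlv : (1 : ℚ) ≤ lev v := by
      have := (hC c₀ hc₀).2
      have h1 : 1 ≤ lev v := by omega
      exact_mod_cast h1
    have hv2 : 2 / (n : ℚ) ≤ wt K lev n ℓ v := by
      rw [hwv]
      have : (0 : ℚ) ≤ ℓ := Nat.cast_nonneg _
      gcongr
      linarith
    have h1 : ∀ c ∈ C, phi K W0 lev cell n ℓ c y ≤
        (wt K lev n ℓ v - 2 / n + wt K lev n ℓ y) + (if c = y then 1 else 0) := by
      intro c hc
      by_cases hcy : c = y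
      · unfold phi
        rw [if_pos hcy, if_pos hcy]
        linarith
      · have hcW : c ∉ W0 := fun h => Finset.disjoint_left.mp hKW (hC c hc).1 h
        unfold phi
        rw [if_neg hcy, if_neg (fun h => hcW h.1), if_neg hcy]
        have hwc : wt K lev n ℓ c = (2 * (lev c : ℚ) + 2 * ℓ) / n := by
          unfold wt; rw [if_pos (hC c hc).1]
        have hl : (lev c : ℚ) + 1 ≤ lev v := by exact_mod_cast (hC c hc).2
        have : wt K lev n ℓ c ≤ wt K lev n ℓ v - 2 / n := by
          rw [hwc, hwv, ← sub_div]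
          gcongr
          linarith
        linarith
    calc ∑ c ∈ C, phi K W0 lev cell n ℓ c y
        ≤ ∑ c ∈ C, ((wt K lev n ℓ v - 2 / n + wt K lev n ℓ y) + (if c = y then 1 else 0)) :=
          Finset.sum_le_sum h1
      _ = C.card * (wt K lev n ℓ v - 2 / n + wt K lev n ℓ y) +
            ∑ c ∈ C, (if c = y then (1 : ℚ) else 0) := by
          rw [Finset.sum_add_distrib, Finset.sum_const, nsmul_eq_mul]
      _ ≤ C.card * (wt K lev n ℓ v - 2 / n + wt K lev n ℓ y) + 1 := by
          gcongr
          rw [Finset.sum_ite_eq' C y]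
          split_ifs <;> norm_num
      _ ≤ C.card * (wt K lev n ℓ v + wt K lev n ℓ y) := by
          have : (1 : ℚ) ≤ C.card * (2 / n) := by
            rw [← mul_div_assoc, le_div_iff₀ hn']
            linarith
          linarith [mul_sub (C.card : ℚ) (wt K lev n ℓ v + wt K lev n ℓ y) (2 / n)]

/-- The derandomised construction. -/
theorem claim {β Γ : Type*} [DecidableEq V] [DecidableEq Γ]
    (N : V → Finset V) (K W0 : Finset V) (hKW : Disjoint K W0)
    (lev : V → ℕ) (cell : V → Γ) (n ℓ : ℕ)
    (hcell : ∀ γ, (W0.filter fun y => cell y = γ).card ≤ ℓ)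
    (hN : ∀ v ∈ K, n ≤ ((N v).filter fun y => y ∈ W0 ∨ (y ∈ K ∧ lev y < lev v)).card)
    (hn : 0 < n) :
    ∀ (m : ℕ) (K' : Finset V), K'.card = m → K' ⊆ K →
      (∀ v ∈ K', ∀ y ∈ K, lev y < lev v → y ∈ K') →
      ∀ (E : Finset β) (p q : β → V),
        (∀ e ∈ E, (p e ∈ K' ∨ p e ∈ W0) ∧ (q e ∈ K' ∨ q e ∈ W0)) →
        ∃ (ρ : V → V) (ch : V → List V),
          (∀ x ∈ W0, ρ x = x ∧ ch x = []) ∧
          (∀ x ∈ K', ρ x ∈ W0 ∧ (ch x).head? = some x ∧
            (ch x ++ [ρ x]).IsChain (fun a b => b ∈ N a) ∧ (ch x).Nodup ∧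
            ∀ y ∈ ch x, y ∈ K' ∧ ρ y = ρ x) ∧
          ((E.filter fun e => cell (ρ (p e)) = cell (ρ (q e))).card : ℚ) ≤
            ∑ e ∈ E, phi K W0 lev cell n ℓ (p e) (q e) := by
  intro m
  induction m with
  | zero =>
    intro K' hK' _ _ E p q hE
    rw [Finset.card_eq_zero] at hK'
    subst hK'
    refine ⟨id, fun _ => [], fun x _ => ⟨rfl, rfl⟩, fun x hx => absurd hx (Finset.notMem_empty x), ?_⟩
    rw [Finset.card_filter]
    push_cast
    apply Finset.sum_le_sum
    intro e he
    obtain ⟨h1, h2⟩ := hE e he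
    have h1' : p e ∈ W0 := h1.resolve_left (Finset.notMem_empty _)
    have h2' : q e ∈ W0 := h2.resolve_left (Finset.notMem_empty _)
    by_cases hpq : p e = q e
    · have h3 : phi K W0 lev cell n ℓ (p e) (q e) = 1 := by
        unfold phi; rw [if_pos hpq]
      rw [h3]
      split_ifs <;> norm_num
    · have h3 : phi K W0 lev cell n ℓ (p e) (q e) = if cell (p e) = cell (q e) then 1 else 0 := by
        unfold phi; rw [if_neg hpq, if_pos ⟨h1', h2'⟩]
      rw [h3]
      exact le_rfl
  | succ m ih =>
    intro K' hK' hK'K hlow E p q hE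
    have hne : K'.Nonempty := by
      rw [← Finset.card_pos]; omega
    obtain ⟨v, hv, hmax⟩ := K'.exists_max_image lev hne
    have hvK : v ∈ K := hK'K hv
    have hvW : v ∉ W0 := fun h => Finset.disjoint_left.mp hKW hvK h
    -- the set of candidates
    obtain ⟨C, hCN, hCcase, hCn, hCK⟩ : ∃ C : Finset V, C ⊆ N v ∧
        (C ⊆ W0 ∨ ∀ c ∈ C, c ∈ K ∧ lev c < lev v) ∧ n ≤ 2 * C.card ∧
        ∀ c ∈ C, c ∈ K'.erase v ∨ c ∈ W0 := by
      have hcard : n ≤ (((N v).filter fun y => y ∈ W0) ∪
          ((N v).filter fun y => y ∈ K ∧ lev y < lev v)).card := by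
        rw [← Finset.filter_or]; exact hN v hvK
      have hle := Finset.card_union_le ((N v).filter fun y => y ∈ W0)
        ((N v).filter fun y => y ∈ K ∧ lev y < lev v)
      by_cases hcase : n ≤ 2 * ((N v).filter fun y => y ∈ W0).card
      · refine ⟨(N v).filter fun y => y ∈ W0, Finset.filter_subset _ _, Or.inl ?_, hcase, ?_⟩
        · intro c hc; exact (Finset.mem_filter.mp hc).2
        · intro c hc; exact Or.inr (Finset.mem_filter.mp hc).2
      · refine ⟨(N v).filter fun y => y ∈ K ∧ lev y < lev v, Finset.filter_subset _ _,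
          Or.inr ?_, by omega, ?_⟩
        · intro c hc; exact (Finset.mem_filter.mp hc).2
        · intro c hc
          obtain ⟨-, hcK, hcl⟩ := Finset.mem_filter.mp hc
          left
          rw [Finset.mem_erase]
          refine ⟨?_, hlow v hv c hcK hcl⟩
          rintro rfl
          exact lt_irrefl _ hcl
    have hCne : C.Nonempty := by
      rw [Finset.nonempty_iff_ne_empty]
      rintro rfl
      simp at hCn
      omega
    -- averaging
    have hphi1 : ∀ x, phi K W0 lev cell n ℓ x x = 1 := by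
      intro x; unfold phi; rw [if_pos rfl]
    have hmem : ∀ x, (x ∈ K' ∨ x ∈ W0) → (x ∈ K ∨ x ∈ W0) := fun x hx => hx.imp_left (@hK'K x)
    have hsum : ∑ c ∈ C, ∑ e ∈ E, phi K W0 lev cell n ℓ (if p e = v then c else p e)
          (if q e = v then c else q e) ≤
        ∑ c ∈ C, ∑ e ∈ E, phi K W0 lev cell n ℓ (p e) (q e) := by
      rw [Finset.sum_comm, Finset.sum_const, nsmul_eq_mul, Finset.mul_sum]
      apply Finset.sum_le_sum
      intro e he
      obtain ⟨h1, h2⟩ := hE e he
      by_cases hp : p e = v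
      · by_cases hq : q e = v
        · simp only [hp, hq, if_true, hphi1, Finset.sum_const, nsmul_eq_mul, mul_one]
          exact le_rfl
        · simp only [hp, if_true, if_neg hq]
          exact avg K W0 hKW lev cell n ℓ hcell hn v hvK C hCcase hCn (q e) (hmem _ h2) hq
      · by_cases hq : q e = v
        · simp only [hq, if_true, if_neg hp]
          rw [phi_comm K W0 lev cell n ℓ (p e) v]
          have := avg K W0 hKW lev cell n ℓ hcell hn v hvK C hCcase hCn (p e) (hmem _ h1) hp
          refine le_trans (le_of_eq ?_) this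
          apply Finset.sum_congr rfl
          intro c _
          rw [phi_comm]
        · simp only [if_neg hp, if_neg hq, Finset.sum_const, nsmul_eq_mul]
          exact le_rfl
    obtain ⟨c, hc, hcle⟩ := Finset.exists_le_of_sum_le hCne hsum
    have hcv : c ≠ v := by
      rcases hCK c hc with h | h
      · exact Finset.ne_of_mem_erase h
      · rintro rfl; exact hvW h
    obtain ⟨ρ, ch, hW, hK, hcount⟩ := ih (K'.erase v) (by rw [Finset.card_erase_of_mem hv, hK']; rfl)
      ((Finset.erase_subset _ _).trans hK'K)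
      (fun u hu y hyK hyl => by
        have huK' := Finset.mem_of_mem_erase hu
        rw [Finset.mem_erase]
        refine ⟨?_, hlow u huK' y hyK hyl⟩
        rintro rfl
        have := hmax u huK'
        omega)
      E (fun e => if p e = v then c else p e) (fun e => if q e = v then c else q e)
      (fun e he => by
        obtain ⟨h1, h2⟩ := hE e he
        constructor
        · by_cases hp : p e = v
          · simp only [hp, if_true]; exact hCK c hc
          · simp only [if_neg hp, Finset.mem_erase]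
            exact h1.imp_left fun h => ⟨hp, h⟩
        · by_cases hq : q e = v
          · simp only [hq, if_true]; exact hCK c hc
          · simp only [if_neg hq, Finset.mem_erase]
            exact h2.imp_left fun h => ⟨hq, h⟩)
    -- extend the forest to `v`
    have hρc : ρ c ∈ W0 := by
      rcases hCK c hc with h | h
      · exact (hK c h).1
      · rw [(hW c h).1]; exact h
    have hchc : ∀ y ∈ ch c, y ∈ K'.erase v ∧ ρ y = ρ c := by
      rcases hCK c hc with h | h
      · exact (hK c h).2.2.2.2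
      · rw [(hW c h).2]; simp
    have hchnd : (ch c).Nodup := by
      rcases hCK c hc with h | h
      · exact (hK c h).2.2.2.1
      · rw [(hW c h).2]; simp
    have hchain : (v :: (ch c ++ [ρ c])).IsChain (fun a b => b ∈ N a) := by
      rw [List.isChain_cons]
      rcases hCK c hc with h | h
      · obtain ⟨-, h2, h3, -, -⟩ := hK c h
        refine ⟨?_, h3⟩
        intro y hy
        rw [List.head?_append, h2] at hy
        simp at hy
        rw [← hy]; exact hCN hc
      · rw [(hW c h).2, (hW c h).1]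
        refine ⟨?_, by simp⟩
        intro y hy
        simp at hy
        rw [← hy]; exact hCN hc
    refine ⟨Function.update ρ v (ρ c), Function.update ch v (v :: ch c), ?_, ?_, ?_⟩
    · intro x hx
      have hxv : x ≠ v := by rintro rfl; exact hvW hx
      rw [Function.update_of_ne hxv, Function.update_of_ne hxv]
      exact hW x hx
    · intro x hx
      by_cases hxv : x = v
      · subst hxv
        rw [Function.update_self, Function.update_self]
        refine ⟨hρc, by simp, by simpa using hchain, ?_, ?_⟩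
        · rw [List.nodup_cons]
          refine ⟨?_, hchnd⟩
          intro hmem'
          exact Finset.notMem_erase x K' (hchc x hmem').1
        · intro y hy
          rw [List.mem_cons] at hy
          rcases hy with rfl | hy
          · exact ⟨hx, by rw [Function.update_self]⟩
          · obtain ⟨h1, h2⟩ := hchc y hy
            refine ⟨Finset.mem_of_mem_erase h1, ?_⟩
            rw [Function.update_of_ne (Finset.ne_of_mem_erase h1)]
            exact h2
      · rw [Function.update_of_ne hxv, Function.update_of_ne hxv]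
        obtain ⟨h1, h2, h3, h4, h5⟩ := hK x (Finset.mem_erase.mpr ⟨hxv, hx⟩)
        refine ⟨h1, h2, h3, h4, ?_⟩
        intro y hy
        obtain ⟨h6, h7⟩ := h5 y hy
        refine ⟨Finset.mem_of_mem_erase h6, ?_⟩
        rw [Function.update_of_ne (Finset.ne_of_mem_erase h6)]
        exact h7
    · have hupd : ∀ x, Function.update ρ v (ρ c) x = ρ (if x = v then c else x) := by
        intro x
        by_cases hxv : x = v
        · subst hxv; rw [Function.update_self, if_pos rfl]
        · rw [Function.update_of_ne hxv, if_neg hxv]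
      simp only [hupd]
      exact hcount.trans hcle

/-- The image of `S` misses at most the number of colliding pairs. -/
theorem card_le_image {Γ : Type*} [DecidableEq V] [DecidableEq Γ] (f : V → Γ) (S : Finset V) :
    S.card ≤ (S.image f).card + (S.offDiag.filter fun e => f e.1 = f e.2).card := by
  induction S using Finset.induction_on with
  | empty => simp
  | insert x S hx ih =>
    rw [Finset.card_insert_of_notMem hx, Finset.image_insert]
    have hsub : (S.offDiag.filter fun e => f e.1 = f e.2) ⊆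
        ((insert x S).offDiag.filter fun e => f e.1 = f e.2) := by
      intro e he
      rw [Finset.mem_filter, Finset.mem_offDiag] at he ⊢
      obtain ⟨⟨h1, h2, h3⟩, h4⟩ := he
      exact ⟨⟨Finset.mem_insert_of_mem h1, Finset.mem_insert_of_mem h2, h3⟩, h4⟩
    by_cases hf : f x ∈ S.image f
    · rw [Finset.insert_eq_of_mem hf]
      obtain ⟨y, hy, hyx⟩ := Finset.mem_image.mp hf
      have hlt : (S.offDiag.filter fun e => f e.1 = f e.2).card <
          ((insert x S).offDiag.filter fun e => f e.1 = f e.2).card := by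
        apply Finset.card_lt_card
        rw [Finset.ssubset_iff_of_subset hsub]
        refine ⟨(x, y), ?_, ?_⟩
        · rw [Finset.mem_filter, Finset.mem_offDiag]
          refine ⟨⟨Finset.mem_insert_self _ _, Finset.mem_insert_of_mem hy, ?_⟩, hyx.symm⟩
          intro hxy
          have hxy' : x = y := hxy
          exact hx (hxy' ▸ hy)
        · intro h
          rw [Finset.mem_filter, Finset.mem_offDiag] at h
          exact hx h.1.1
      omega
    · rw [Finset.card_insert_of_notMem hf]
      have := Finset.card_le_card hsub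
      omega

end Forest

theorem forest {ι Γ : Type*} [DecidableEq V] [DecidableEq Γ]
    (N : V → Finset V) (K W0 : Finset V) (hKW : Disjoint K W0)
    (lev : V → ℕ) (cell : V → Γ) (n ℓ s : ℕ) (hℓ : 1 ≤ ℓ)
    (hlev : ∀ v ∈ K, lev v ≤ ℓ)
    (hcell : ∀ γ, (W0.filter fun y => cell y = γ).card ≤ ℓ)
    (hN : ∀ v ∈ K, n ≤ ((N v).filter fun y => y ∈ W0 ∨ (y ∈ K ∧ lev y < lev v)).card)
    (I : Finset ι) (S : ι → Finset V)
    (hS : ∀ a ∈ I, (S a).card = s ∧ (S a ⊆ K ∨ (S a ⊆ W0 ∧ Set.InjOn cell (S a))))
    (hs : 32 * ℓ * s ≤ n) (hn : 0 < n) :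
    ∃ (ρ : V → V) (ch : V → List V),
      (∀ x ∈ W0, ρ x = x ∧ ch x = []) ∧
      (∀ x ∈ K, ρ x ∈ W0 ∧ (ch x).head? = some x ∧
        (ch x ++ [ρ x]).IsChain (fun a b => b ∈ N a) ∧ (ch x).Nodup ∧
        ∀ y ∈ ch x, y ∈ K ∧ ρ y = ρ x) ∧
      3 * s * I.card ≤ 4 * ∑ a ∈ I, ((S a).image fun x => cell (ρ x)).card := by
  have hSmem : ∀ a ∈ I, ∀ x ∈ S a, x ∈ K ∨ x ∈ W0 := by
    intro a ha x hx
    rcases (hS a ha).2 with h | h
    · exact Or.inl (h hx)
    · exact Or.inr (h.1 hx)
  obtain ⟨ρ, ch, hW, hK, hcount⟩ := Forest.claim (β := Σ _ : ι, V × V) N K W0 hKW lev cell n ℓ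
    hcell hN hn K.card K rfl (Finset.Subset.refl _) (fun _ _ y hy _ => hy)
    (I.sigma fun a => (S a).offDiag) (fun e => e.2.1) (fun e => e.2.2)
    (fun e he => by
      rw [Finset.mem_sigma, Finset.mem_offDiag] at he
      exact ⟨hSmem e.1 he.1 _ he.2.1, hSmem e.1 he.1 _ he.2.2.1⟩)
  refine ⟨ρ, ch, hW, hK, ?_⟩
  have hn' : (0 : ℚ) < n := by exact_mod_cast hn
  have hs' : 32 * (ℓ : ℚ) * s ≤ n := by exact_mod_cast hs
  -- the bound for the number of collisions
  have hbound : ∀ a ∈ I, ∑ e ∈ (S a).offDiag, Forest.phi K W0 lev cell n ℓ e.1 e.2 ≤ (s : ℚ) / 4 := by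
    intro a ha
    obtain ⟨hcard, hcase⟩ := hS a ha
    rcases hcase with h | ⟨h, hinj⟩
    · have h1 : ∀ e ∈ (S a).offDiag, Forest.phi K W0 lev cell n ℓ e.1 e.2 ≤ 8 * (ℓ : ℚ) / n := by
        intro e he
        rw [Finset.mem_offDiag] at he
        obtain ⟨hx, hy, hxy⟩ := he
        have hxW : e.1 ∉ W0 := fun h' => Finset.disjoint_left.mp hKW (h hx) h'
        unfold Forest.phi Forest.wt
        rw [if_neg hxy, if_neg (fun h' => hxW h'.1), if_pos (h hx), if_pos (h hy), ← add_div]
        have h2 : (lev e.1 : ℚ) ≤ ℓ := by exact_mod_cast hlev _ (h hx)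
        have h3 : (lev e.2 : ℚ) ≤ ℓ := by exact_mod_cast hlev _ (h hy)
        gcongr
        linarith
      have h4 : ((S a).offDiag.card : ℚ) ≤ s * s := by
        rw [Finset.offDiag_card, hcard]
        exact_mod_cast Nat.sub_le _ _
      calc ∑ e ∈ (S a).offDiag, Forest.phi K W0 lev cell n ℓ e.1 e.2
          ≤ ∑ e ∈ (S a).offDiag, (8 * (ℓ : ℚ) / n) := Finset.sum_le_sum h1
        _ = (S a).offDiag.card * (8 * (ℓ : ℚ) / n) := by rw [Finset.sum_const, nsmul_eq_mul]
        _ ≤ (s * s) * (8 * (ℓ : ℚ) / n) := by gcongr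
        _ = s * (8 * ℓ * s / n) := by ring
        _ ≤ s * (1 / 4) := by
            have h5 : 8 * (ℓ : ℚ) * s / n ≤ 1 / 4 := by
              rw [div_le_div_iff₀ hn' (by norm_num)]
              linarith
            gcongr
        _ = (s : ℚ) / 4 := by ring
    · have h1 : ∀ e ∈ (S a).offDiag, Forest.phi K W0 lev cell n ℓ e.1 e.2 = 0 := by
        intro e he
        rw [Finset.mem_offDiag] at he
        obtain ⟨hx, hy, hxy⟩ := he
        unfold Forest.phi
        rw [if_neg hxy, if_pos ⟨h hx, h hy⟩, if_neg]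
        intro hc
        exact hxy (hinj hx hy hc)
      rw [Finset.sum_eq_zero h1]
      positivity
  have htotal : (((I.sigma fun a => (S a).offDiag).filter fun e =>
      cell (ρ e.2.1) = cell (ρ e.2.2)).card : ℚ) ≤ I.card * ((s : ℚ) / 4) := by
    refine hcount.trans ?_
    rw [Finset.sum_sigma]
    calc ∑ a ∈ I, ∑ e ∈ (S a).offDiag, Forest.phi K W0 lev cell n ℓ e.1 e.2
        ≤ ∑ a ∈ I, (s : ℚ) / 4 := Finset.sum_le_sum hbound
      _ = I.card * ((s : ℚ) / 4) := by rw [Finset.sum_const, nsmul_eq_mul]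
  have hsplit : ((I.sigma fun a => (S a).offDiag).filter fun e =>
      cell (ρ e.2.1) = cell (ρ e.2.2)).card =
      ∑ a ∈ I, ((S a).offDiag.filter fun e => cell (ρ e.1) = cell (ρ e.2)).card := by
    rw [Finset.card_filter, Finset.sum_sigma]
    apply Finset.sum_congr rfl
    intro a _
    rw [Finset.card_filter]
  have himage : s * I.card ≤ ∑ a ∈ I, ((S a).image fun x => cell (ρ x)).card +
      ∑ a ∈ I, ((S a).offDiag.filter fun e => cell (ρ e.1) = cell (ρ e.2)).card := by
    rw [← Finset.sum_add_distrib, mul_comm, ← smul_eq_mul, ← Finset.sum_const]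
    apply Finset.sum_le_sum
    intro a ha
    rw [← (hS a ha).1]
    exact Forest.card_le_image (fun x => cell (ρ x)) (S a)
  rw [hsplit] at htotal
  have h1 : ((s * I.card : ℕ) : ℚ) ≤ ((∑ a ∈ I, ((S a).image fun x => cell (ρ x)).card : ℕ) : ℚ) +
      ((∑ a ∈ I, ((S a).offDiag.filter fun e => cell (ρ e.1) = cell (ρ e.2)).card : ℕ) : ℚ) := by
    exact_mod_cast himage
  have h2 : ((3 * s * I.card : ℕ) : ℚ) ≤
      ((4 * ∑ a ∈ I, ((S a).image fun x => cell (ρ x)).card : ℕ) : ℚ) := by
    push_cast at h1 htotal ⊢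
    linarith
  exact_mod_cast h2

end Pool.Agent.Lib.MP_ed9a33_co
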