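import Pool.Agent.Lib.MP_ed9a33_co.Defs

/-!
# Stable crossings of two families of disjoint paths
-/

set_option autoImplicit false

namespace Pool.Agent.Lib.MP_ed9a33_co

variable {V : Type*}

namespace Stable

variable [DecidableEq V] {I J : Type*}

/-- The vertex at the pointer. -/
def ptr (P : I → List V) (d : I → V) (s : I → ℕ) (i : I) : V := (P i).getD (s i) (d i)

/-- Admissible positions of the pointers. -/
def Inv (P : I → List V) (Q : J → List V) (d : I → V) (s : I → ℕ) : Prop :=
  (∀ i, s i < (P i).length) ∧ ∀ i, ∀ y ∈ (P i).take (s i), ∀ j, y ∈ Q j →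
    ∃ i', ptr P d s i' ∈ Q j ∧ (Q j).idxOf (ptr P d s i') < (Q j).idxOf y

omit [DecidableEq V] in
theorem ptr_mem {P : I → List V} {d : I → V} (hd : ∀ i, d i ∈ P i) (s : I → ℕ) (i : I) :
    ptr P d s i ∈ P i := by
  unfold ptr
  by_cases h : s i < (P i).length
  · rw [List.getD_eq_getElem _ _ h]
    exact List.getElem_mem h
  · rw [List.getD_eq_default _ _ (not_lt.1 h)]
    exact hd i

omit [DecidableEq V] in
theorem mem_take_succ {l : List V} {n : ℕ} (hn : n < l.length) {y d : V}
    (h : y ∈ l.take (n + 1)) : y ∈ l.take n ∨ y = l.getD n d := by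
  rw [List.take_succ_eq_append_getElem hn, List.mem_append, List.mem_singleton] at h
  rcases h with h | h
  · exact Or.inl h
  · right
    rw [h, List.getD_eq_getElem _ _ hn]

theorem advance [DecidableEq I] {P : I → List V} {Q : J → List V} {d : I → V} {s : I → ℕ} (hs : Inv P Q d s) {k : I}
    (hk : s k + 1 < (P k).length)
    (h : ∀ j, ptr P d s k ∈ Q j → ∃ i, i ≠ k ∧ ptr P d s i ∈ Q j ∧
      (Q j).idxOf (ptr P d s i) < (Q j).idxOf (ptr P d s k)) :
    Inv P Q d (Function.update s k (s k + 1)) := by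
  have hptr : ∀ i, i ≠ k → ptr P d (Function.update s k (s k + 1)) i = ptr P d s i := by
    intro i hi
    unfold ptr
    rw [Function.update_of_ne hi]
  refine ⟨?_, ?_⟩
  · intro i
    by_cases hi : i = k
    · subst hi
      rw [Function.update_self]
      exact hk
    · rw [Function.update_of_ne hi]
      exact hs.1 i
  · intro i y hy j hyj
    -- a witness for the old pointers gives one for the new pointers
    have key : (∃ i', ptr P d s i' ∈ Q j ∧ (Q j).idxOf (ptr P d s i') < (Q j).idxOf y) →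
        ∃ i', ptr P d (Function.update s k (s k + 1)) i' ∈ Q j ∧
          (Q j).idxOf (ptr P d (Function.update s k (s k + 1)) i') < (Q j).idxOf y := by
      rintro ⟨i', h1, h2⟩
      by_cases hi' : i' = k
      · subst hi'
        obtain ⟨i2, h3, h4, h5⟩ := h j h1
        exact ⟨i2, by rw [hptr i2 h3]; exact h4, by rw [hptr i2 h3]; exact h5.trans h2⟩
      · exact ⟨i', by rw [hptr i' hi']; exact h1, by rw [hptr i' hi']; exact h2⟩
    by_cases hi : i = k
    · subst hi
      rw [Function.update_self] at hy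
      rcases mem_take_succ (d := d i) (hs.1 i) hy with hy | hy
      · exact key (hs.2 i y hy j hyj)
      · have hy' : y = ptr P d s i := hy
        subst hy'
        obtain ⟨i2, h3, h4, h5⟩ := h j hyj
        exact ⟨i2, by rw [hptr i2 h3]; exact h4, by rw [hptr i2 h3]; exact h5⟩
    · rw [Function.update_of_ne hi] at hy
      exact key (hs.2 i y hy j hyj)

theorem exists_max [Fintype I] [DecidableEq I] (P : I → List V) (Q : J → List V) (d : I → V)
    (hP : ∀ i, 0 < (P i).length) :
    ∃ s, Inv P Q d s ∧ ∀ s', Inv P Q d s' → ∑ i, s' i ≤ ∑ i, s i := by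
  set A : Set ℕ := {n | ∃ s, Inv P Q d s ∧ ∑ i, s i = n} with hA
  have hne : A.Nonempty := by
    refine ⟨0, fun _ => 0, ⟨hP, fun i y hy => ?_⟩, by simp⟩
    simp at hy
  have hbdd : BddAbove A := by
    refine ⟨∑ i, (P i).length, ?_⟩
    rintro n ⟨s, hs, rfl⟩
    exact Finset.sum_le_sum fun i _ => (hs.1 i).le
  obtain ⟨s, hs, hsum⟩ := Nat.sSup_mem hne hbdd
  refine ⟨s, hs, fun s' hs' => ?_⟩
  rw [hsum]
  exact le_csSup hbdd ⟨s', hs', rfl⟩

end Stable

open Stable in
theorem stable [DecidableEq V] {I J : Type*} [Fintype I] [Fintype J] [DecidableEq I]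
    [DecidableEq J] (T : Finset V) (P : I → List V) (Q : J → List V)
    (hP : ∀ i, (P i).Nodup ∧ (∃ t ∈ T, (P i).getLast? = some t) ∧ ∀ v ∈ (P i).dropLast, v ∉ T)
    (hQ : ∀ j, (Q j).Nodup ∧ (∃ t ∈ T, (Q j).getLast? = some t) ∧ ∀ v ∈ (Q j).dropLast, v ∉ T)
    (hPd : ∀ i i', i ≠ i' → (P i).Disjoint (P i'))
    (hQd : ∀ j j', j ≠ j' → (Q j).Disjoint (Q j')) :
    ∃ (M : Finset (I × J)) (a b : I × J → List V) (x : I × J → V),
      (∀ e ∈ M, ∀ e' ∈ M, e.1 = e'.1 ∨ e.2 = e'.2 → e = e') ∧
      (∀ e ∈ M, (∃ a', P e.1 = a e ++ x e :: a') ∧ (∃ b', Q e.2 = b e ++ x e :: b')) ∧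
      (∀ e ∈ M, ∀ e' ∈ M, (a e).Disjoint (b e') ∧
        (e ≠ e' → x e ≠ x e' ∧ x e ∉ a e' ∧ x e ∉ b e')) ∧
      Fintype.card I + Fintype.card J ≤ T.card + 2 * M.card := by
  classical
  choose d hdT hd using fun i => (hP i).2.1
  choose w hwT hw using fun j => (hQ j).2.1
  have hdP : ∀ i, d i ∈ P i := fun i => List.mem_of_getLast? (hd i)
  have hwQ : ∀ j, w j ∈ Q j := fun j => List.mem_of_getLast? (hw j)
  have hlen : ∀ i, 0 < (P i).length := fun i => List.length_pos_of_mem (hdP i)
  obtain ⟨s, hs, hmax⟩ := exists_max P Q d hlen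
  set v : I → V := ptr P d s with hv
  have hvP : ∀ i, v i ∈ P i := ptr_mem hdP s
  -- no pointer can be advanced
  have hstop : ∀ k, s k + 1 < (P k).length → ∃ j, v k ∈ Q j ∧
      ∀ i, i ≠ k → v i ∈ Q j → (Q j).idxOf (v k) ≤ (Q j).idxOf (v i) := by
    intro k hk
    by_contra hcon
    push Not at hcon
    have h1 := advance hs hk (fun j hj => by
      obtain ⟨i, h2, h3, h4⟩ := hcon j hj
      exact ⟨i, h2, h3, h4⟩)
    have h2 := hmax _ h1
    rw [Finset.sum_update_of_mem (Finset.mem_univ k)] at h2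
    rw [← Finset.add_sum_erase Finset.univ s (Finset.mem_univ k)] at h2
    have h3 : Finset.univ \ {k} = Finset.univ.erase k := by
      ext z; simp
    rw [h3] at h2
    omega
  -- a pointer at the last position is in `T`
  have hlast : ∀ k, ¬ s k + 1 < (P k).length → v k = d k := by
    intro k hk
    have h1 := hs.1 k
    have h2 : s k = (P k).length - 1 := by omega
    rw [hv]
    unfold ptr
    rw [List.getD_eq_getElem _ _ h1]
    have h3 := hd k
    rw [List.getLast?_eq_getElem?, List.getElem?_eq_getElem (by omega)] at h3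
    simp only [Option.some.injEq] at h3
    rw [← h3]
    congr 1
  set M : Finset (I × J) := Finset.univ.filter (fun e : I × J => v e.1 ∈ Q e.2 ∧
    ∀ i, v i ∈ Q e.2 → (Q e.2).idxOf (v e.1) ≤ (Q e.2).idxOf (v i)) with hM
  have hMm : ∀ e, e ∈ M ↔ v e.1 ∈ Q e.2 ∧
      ∀ i, v i ∈ Q e.2 → (Q e.2).idxOf (v e.1) ≤ (Q e.2).idxOf (v i) := by
    intro e
    rw [hM, Finset.mem_filter]
    simp
  have hvinj : ∀ i i', v i = v i' → i = i' := by
    intro i i' h
    by_contra hne
    exact hPd i i' hne (hvP i) (h ▸ hvP i')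
  have hmat : ∀ e ∈ M, ∀ e' ∈ M, e.1 = e'.1 ∨ e.2 = e'.2 → e = e' := by
    intro e he e' he' h
    rw [hMm] at he he'
    rcases h with h | h
    · refine Prod.ext h ?_
      by_contra hne
      exact hQd _ _ hne he.1 (h ▸ he'.1)
    · refine Prod.ext ?_ h
      rw [← h] at he'
      have h1 := he.2 _ he'.1
      have h2 := he'.2 _ he.1
      exact hvinj _ _ ((List.idxOf_inj he.1).1 (le_antisymm h1 h2))
  refine ⟨M, fun e => (P e.1).take (s e.1), fun e => (Q e.2).take ((Q e.2).idxOf (v e.1)),
    fun e => v e.1, hmat, ?_, ?_, ?_⟩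
  · intro e he
    rw [hMm] at he
    constructor
    · refine ⟨(P e.1).drop (s e.1 + 1), ?_⟩
      have h1 := hs.1 e.1
      have h2 : v e.1 = (P e.1)[s e.1] := List.getD_eq_getElem _ _ h1
      show P e.1 = List.take (s e.1) (P e.1) ++ v e.1 :: List.drop (s e.1 + 1) (P e.1)
      rw [h2, ← List.drop_eq_getElem_cons h1, List.take_append_drop]
    · have h1 : (Q e.2).idxOf (v e.1) < (Q e.2).length := List.idxOf_lt_length_iff.2 he.1
      refine ⟨(Q e.2).drop ((Q e.2).idxOf (v e.1) + 1), ?_⟩
      have h2 : v e.1 = (Q e.2)[(Q e.2).idxOf (v e.1)] := (List.getElem_idxOf h1).symm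
      have h3 := List.drop_eq_getElem_cons h1
      rw [← h2] at h3
      show Q e.2 = List.take ((Q e.2).idxOf (v e.1)) (Q e.2) ++ v e.1 :: _
      rw [← h3, List.take_append_drop]
  · intro e he e' he'
    rw [hMm] at he he'
    -- vertices of `b e'` come before the pointer on `Q e'.2`
    have hb : ∀ y ∈ (Q e'.2).take ((Q e'.2).idxOf (v e'.1)),
        y ∈ Q e'.2 ∧ (Q e'.2).idxOf y < (Q e'.2).idxOf (v e'.1) := by
      intro y hy
      have h1 := List.mem_of_mem_take hy
      refine ⟨h1, ?_⟩
      obtain ⟨n, hn, rfl⟩ := List.getElem_of_mem hy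
      rw [List.length_take] at hn
      have hn' : n < (Q e'.2).length := lt_of_lt_of_le hn (min_le_right _ _)
      rw [List.getElem_take, (hQ e'.2).1.idxOf_getElem]
      exact lt_of_lt_of_le hn (min_le_left _ _)
    refine ⟨?_, fun hne => ⟨?_, ?_, ?_⟩⟩
    · intro y hy hy'
      obtain ⟨h1, h2⟩ := hb y hy'
      obtain ⟨i', h3, h4⟩ := hs.2 e.1 y hy e'.2 h1
      have h5 := he'.2 i' h3
      have h6 : (Q e'.2).idxOf (v i') < (Q e'.2).idxOf y := h4
      omega
    · intro h
      apply hne
      exact hmat e ((hMm e).2 he) e' ((hMm e').2 he') (Or.inl (hvinj _ _ h))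
    · intro h
      have h1 : e.1 ≠ e'.1 := fun h' =>
        hne (hmat e ((hMm e).2 he) e' ((hMm e').2 he') (Or.inl h'))
      exact hPd _ _ h1 (hvP e.1) (List.mem_of_mem_take h)
    · intro h
      obtain ⟨h1, h2⟩ := hb _ h
      have h3 := he'.2 _ h1
      exact absurd h2 (not_lt.2 h3)
  · -- counting
    have c1 : (M.image Prod.fst).card = M.card :=
      Finset.card_image_of_injOn (fun e he e' he' h => hmat e he e' he' (Or.inl h))
    have c2 : (M.image Prod.snd).card = M.card :=
      Finset.card_image_of_injOn (fun e he e' he' h => hmat e he e' he' (Or.inr h))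
    -- pointers of unmatched `i` are last
    have u1 : ∀ i, i ∉ M.image Prod.fst → v i = d i := by
      intro i hi
      by_contra hne
      have h1 : s i + 1 < (P i).length := by
        by_contra h2
        exact hne (hlast i h2)
      obtain ⟨j, h2, h3⟩ := hstop i h1
      apply hi
      rw [Finset.mem_image]
      refine ⟨(i, j), (hMm _).2 ⟨h2, fun i' hi' => ?_⟩, rfl⟩
      by_cases h4 : i' = i
      · rw [h4]
      · exact h3 i' h4 hi'
    have u2 : ∀ j, j ∉ M.image Prod.snd → ∀ i, v i ∉ Q j := by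
      intro j hj i hi
      apply hj
      obtain ⟨i0, h1, h2⟩ := Finset.exists_min_image (Finset.univ.filter (fun i => v i ∈ Q j))
        (fun i => (Q j).idxOf (v i)) ⟨i, by simp [hi]⟩
      rw [Finset.mem_image]
      rw [Finset.mem_filter] at h1
      exact ⟨(i0, j), (hMm _).2 ⟨h1.2, fun i' hi' => h2 i' (by simp [hi'])⟩, rfl⟩
    have hinjd : Set.InjOn d (↑(Finset.univ \ M.image Prod.fst) : Set I) := by
      intro i _ i' _ h
      by_contra hne
      exact hPd i i' hne (hdP i) (h ▸ hdP i')
    have hinjw : Set.InjOn w (↑(Finset.univ \ M.image Prod.snd) : Set J) := by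
      intro i _ i' _ h
      by_contra hne
      exact hQd i i' hne (hwQ i) (h ▸ hwQ i')
    have hdis : Disjoint ((Finset.univ \ M.image Prod.fst).image d)
        ((Finset.univ \ M.image Prod.snd).image w) := by
      rw [Finset.disjoint_left]
      intro t ht ht'
      rw [Finset.mem_image] at ht ht'
      obtain ⟨i, hi, rfl⟩ := ht
      obtain ⟨j, hj, h1⟩ := ht'
      rw [Finset.mem_sdiff] at hi hj
      apply u2 j hj.2 i
      rw [u1 i hi.2, ← h1]
      exact hwQ j
    have hsub : (Finset.univ \ M.image Prod.fst).image d ∪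
        (Finset.univ \ M.image Prod.snd).image w ⊆ T := by
      intro t ht
      rw [Finset.mem_union, Finset.mem_image, Finset.mem_image] at ht
      rcases ht with ⟨i, _, rfl⟩ | ⟨j, _, rfl⟩
      · exact hdT i
      · exact hwT j
    have h1 := Finset.card_le_card hsub
    rw [Finset.card_union_of_disjoint hdis, Finset.card_image_of_injOn hinjd,
      Finset.card_image_of_injOn hinjw] at h1
    have h2 := Finset.card_sdiff_add_card_inter (Finset.univ : Finset I) (M.image Prod.fst)
    have h3 := Finset.card_sdiff_add_card_inter (Finset.univ : Finset J) (M.image Prod.snd)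
    rw [Finset.univ_inter, Finset.card_univ, c1] at h2
    rw [Finset.univ_inter, Finset.card_univ, c2] at h3
    omega

end Pool.Agent.Lib.MP_ed9a33_co
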