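import Pool.Agent.Lib.MP_ed9a33_co.Linking
import Pool.Agent.Lib.MP_ed9a33_co.Stable

/-!
# Disjoint forks
-/

set_option autoImplicit false

namespace Pool.Agent.Lib.MP_ed9a33_co

variable {V : Type*}

namespace Forks

theorem path_pre {Adj : V → V → Prop} {A B : Finset V} {p a a' : List V} {x : V}
    (h : IsPath Adj A B p) (hp : p = a ++ x :: a') :
    (a ++ [x]).IsChain Adj ∧ (∃ y ∈ A, (a ++ [x]).head? = some y) ∧ a.Nodup ∧ x ∉ a := by
  obtain ⟨h1, h2, ⟨y, hy, h3⟩, -⟩ := h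
  have e : p = (a ++ [x]) ++ a' := by rw [hp]; simp
  refine ⟨?_, ⟨y, hy, ?_⟩, ?_, ?_⟩
  · rw [e] at h1
    exact h1.left_of_append
  · rw [← h3, e]
    cases a <;> simp
  · rw [hp] at h2
    exact (List.nodup_append.1 h2).1
  · intro hx
    rw [hp] at h2
    exact List.disjoint_of_nodup_append h2 hx (List.mem_cons_self)

theorem fork_of {Adj : V → V → Prop} {A B T : Finset V} {p q a a' b b' : List V} {x : V}
    (hp : IsPath Adj A T p) (hq : IsPath Adj B T q) (ep : p = a ++ x :: a')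
    (eq : q = b ++ x :: b') (hd : a.Disjoint b) :
    Fork Adj A B a x b ∧ (a ++ b ++ [x]).Nodup := by
  obtain ⟨p1, p2, p3, p4⟩ := path_pre hp ep
  obtain ⟨q1, q2, q3, q4⟩ := path_pre hq eq
  refine ⟨⟨p1, p2, q1, q2⟩, ?_⟩
  rw [List.nodup_append, List.nodup_append]
  refine ⟨⟨p3, q3, ?_⟩, List.nodup_singleton _, ?_⟩
  · intro y hy z hz hyz
    subst hyz
    exact hd hy hz
  · intro y hy z hz hyz
    rw [List.mem_singleton] at hz
    subst hyz
    subst hz
    rcases List.mem_append.1 hy with h | h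
    · exact p4 h
    · exact q4 h

end Forks

open Forks in
theorem one_fork [Fintype V] [DecidableEq V] (Adj : V → V → Prop) (T : Finset V) (K : ℕ)
    (hT : T.card < 2 * K) (N N' : Finset V) (h : Fan Adj N T K) (h' : Fan Adj N' T K) :
    ∃ (a b : List V) (x : V), Fork Adj N N' a x b ∧ (a ++ b ++ [x]).Nodup := by
  obtain ⟨P, hP, hPd⟩ := menger Adj N T K h
  obtain ⟨Q, hQ, hQd⟩ := menger Adj N' T K h'
  obtain ⟨M, a, b, x, h1, h2, h3, h4⟩ := stable T P Q
    (fun i => ⟨(hP i).2.1, (hP i).2.2.2.1, (hP i).2.2.2.2⟩)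
    (fun i => ⟨(hQ i).2.1, (hQ i).2.2.2.1, (hQ i).2.2.2.2⟩) hPd hQd
  rw [Fintype.card_fin] at h4
  have hM : M.Nonempty := by
    rw [← Finset.card_pos]
    omega
  obtain ⟨e, he⟩ := hM
  obtain ⟨⟨a', ha'⟩, ⟨b', hb'⟩⟩ := h2 e he
  exact ⟨a e, b e, x e, fork_of (hP _) (hQ _) ha' hb' (h3 e he e he).1⟩

open Forks in
theorem two_forks [Fintype V] [DecidableEq V] (Adj : V → V → Prop) (T : Finset V) (K : ℕ)
    (hT : T.card < 4 * K) (N N' : Fin 3 → Finset V)
    (h : ∀ i, Fan Adj (N i) T (3 * K)) (h' : ∀ j, Fan Adj (N' j) T (3 * K)) :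
    ∃ (i i' j j' : Fin 3) (a b a' b' : List V) (x x' : V), i ≠ i' ∧ j ≠ j' ∧
      Fork Adj (N i) (N' j) a x b ∧ Fork Adj (N i') (N' j') a' x' b' ∧
      (a ++ b ++ [x] ++ (a' ++ b' ++ [x'])).Nodup := by
  obtain ⟨P, hP, hPd⟩ := linking Adj N T K (by simpa using h)
  obtain ⟨Q, hQ, hQd⟩ := linking Adj N' T K (by simpa using h')
  obtain ⟨M, a, b, x, h1, h2, h3, h4⟩ := stable T P Q
    (fun i => ⟨(hP i).2.1, (hP i).2.2.2.1, (hP i).2.2.2.2⟩)
    (fun i => ⟨(hQ i).2.1, (hQ i).2.2.2.1, (hQ i).2.2.2.2⟩) hPd hQd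
  rw [Fintype.card_prod, Fintype.card_fin, Fintype.card_fin] at h4
  have hMK : K < M.card := by omega
  -- at most `K` elements in a row or in a column
  have hrow : ∀ i : Fin 3, (M.filter (fun e => e.1.1 = i)).card ≤ K := by
    intro i
    have := Finset.card_le_card_of_injOn (s := M.filter (fun e => e.1.1 = i))
      (t := (Finset.univ : Finset (Fin K))) (fun e => e.1.2) (fun e _ => Finset.mem_univ _) (by
        intro e he e' he' hee
        rw [Finset.mem_coe, Finset.mem_filter] at he he'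
        exact h1 e he.1 e' he'.1 (Or.inl (Prod.ext (he.2.trans he'.2.symm) hee)))
    rwa [Finset.card_univ, Fintype.card_fin] at this
  have hcol : ∀ j : Fin 3, (M.filter (fun e => e.2.1 = j)).card ≤ K := by
    intro j
    have := Finset.card_le_card_of_injOn (s := M.filter (fun e => e.2.1 = j))
      (t := (Finset.univ : Finset (Fin K))) (fun e => e.2.2) (fun e _ => Finset.mem_univ _) (by
        intro e he e' he' hee
        rw [Finset.mem_coe, Finset.mem_filter] at he he'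
        exact h1 e he.1 e' he'.1 (Or.inr (Prod.ext (he.2.trans he'.2.symm) hee)))
    rwa [Finset.card_univ, Fintype.card_fin] at this
  have hrow' : ∀ i : Fin 3, ∃ e ∈ M, e.1.1 ≠ i := by
    intro i
    by_contra hcon
    push Not at hcon
    have := hrow i
    rw [Finset.filter_true_of_mem hcon] at this
    omega
  have hcol' : ∀ j : Fin 3, ∃ e ∈ M, e.2.1 ≠ j := by
    intro j
    by_contra hcon
    push Not at hcon
    have := hcol j
    rw [Finset.filter_true_of_mem hcon] at this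
    omega
  obtain ⟨e, he, e', he', hr, hc⟩ : ∃ e ∈ M, ∃ e' ∈ M, e.1.1 ≠ e'.1.1 ∧ e.2.1 ≠ e'.2.1 := by
    obtain ⟨e, he, -⟩ := hrow' 0
    obtain ⟨e', he', hr⟩ := hrow' e.1.1
    by_cases hc : e'.2.1 = e.2.1
    · obtain ⟨e'', he'', hc''⟩ := hcol' e.2.1
      by_cases hr'' : e''.1.1 = e.1.1
      · refine ⟨e', he', e'', he'', ?_, ?_⟩
        · rw [hr'']; exact hr
        · rw [hc]; exact fun h => hc'' h.symm
      · exact ⟨e, he, e'', he'', fun h => hr'' h.symm, fun h => hc'' h.symm⟩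
    · exact ⟨e, he, e', he', fun h => hr h.symm, fun h => hc h.symm⟩
  obtain ⟨⟨a1, ha1⟩, ⟨b1, hb1⟩⟩ := h2 e he
  obtain ⟨⟨a2, ha2⟩, ⟨b2, hb2⟩⟩ := h2 e' he'
  obtain ⟨f1, n1⟩ := fork_of (hP _) (hQ _) ha1 hb1 (h3 e he e he).1
  obtain ⟨f2, n2⟩ := fork_of (hP _) (hQ _) ha2 hb2 (h3 e' he' e' he').1
  refine ⟨e.1.1, e'.1.1, e.2.1, e'.2.1, a e, b e, a e', b e', x e, x e', hr, hc, f1, f2, ?_⟩
  rw [List.nodup_append]
  refine ⟨n1, n2, ?_⟩
  have hne : e ≠ e' := fun h => hr (by rw [h])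
  have d1 := h3 e he e' he'
  have d2 := h3 e' he' e he
  have hP12 : (P e.1).Disjoint (P e'.1) := hPd _ _ (fun h => hr (by rw [h]))
  have hQ12 : (Q e.2).Disjoint (Q e'.2) := hQd _ _ (fun h => hc (by rw [h]))
  rw [ha1, ha2] at hP12
  rw [hb1, hb2] at hQ12
  intro y hy z hz hyz
  subst hyz
  simp only [List.mem_append, List.mem_singleton] at hy hz
  rcases hy with (hy | hy) | hy
  · rcases hz with (hz | hz) | hz
    · exact hP12 (List.mem_append_left _ hy) (List.mem_append_left _ hz)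
    · exact d1.1 hy hz
    · subst hz
      exact (d2.2 hne.symm).2.1 hy
  · rcases hz with (hz | hz) | hz
    · exact d2.1 hz hy
    · exact hQ12 (List.mem_append_left _ hy) (List.mem_append_left _ hz)
    · subst hz
      exact (d2.2 hne.symm).2.2 hy
  · subst hy
    rcases hz with (hz | hz) | hz
    · exact (d1.2 hne).2.1 hz
    · exact (d1.2 hne).2.2 hz
    · exact (d1.2 hne).1 hz

end Pool.Agent.Lib.MP_ed9a33_co
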