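import Pool.Agent.Lib.MP_ed9a33_co.Menger

/-!
# Linking several sets to a target at the same time
-/

set_option autoImplicit false

namespace Pool.Agent.Lib.MP_ed9a33_co

variable {V : Type*}

namespace Linking

variable {κ : Type*}

/-- The digraph with an extra source vertex for every element of `κ`. -/
def Adj' (Adj : V → V → Prop) (N : κ → Finset V) : V ⊕ κ → V ⊕ κ → Prop
  | .inl x, .inl y => Adj x y
  | .inr e, .inl y => y ∈ N e
  | _, .inr _ => False

theorem chain_inl {Adj : V → V → Prop} {N : κ → Finset V} (l : List (V ⊕ κ)) :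
    ∀ x : V ⊕ κ, (x :: l).IsChain (Adj' Adj N) → ∃ l0 : List V, l = l0.map Sum.inl := by
  induction l with
  | nil => intro x _; exact ⟨[], rfl⟩
  | cons y l ih =>
    intro x h
    rw [List.isChain_cons_cons] at h
    obtain ⟨l0, hl0⟩ := ih y h.2
    rcases y with y | y
    · exact ⟨y :: l0, by rw [hl0]; rfl⟩
    · exfalso
      rcases x with x | x <;> exact h.1

theorem rch_lift {Adj : V → V → Prop} {N : κ → Finset V} {X : Finset V} {X' : Finset (V ⊕ κ)}
    (hX : ∀ v, v ∉ X → Sum.inl v ∉ X') {a b : V} (h : Rch Adj X a b) :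
    Rch (Adj' Adj N) X' (Sum.inl a) (Sum.inl b) := by
  unfold Rch at *
  induction h with
  | refl => exact Relation.ReflTransGen.refl
  | tail _ hbc ih => exact ih.tail ⟨hbc.1, hX _ hbc.2⟩

end Linking

open Linking in
theorem linking [Fintype V] [DecidableEq V] {ι : Type*} [Fintype ι] [DecidableEq ι]
    (Adj : V → V → Prop) (N : ι → Finset V) (T : Finset V) (c : ℕ)
    (h : ∀ i, Fan Adj (N i) T (Fintype.card ι * c)) :
    ∃ P : ι × Fin c → List V, (∀ e, IsPath Adj (N e.1) T (P e)) ∧
      ∀ e e', e ≠ e' → (P e).Disjoint (P e') := by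
  classical
  set A' : Finset (V ⊕ (ι × Fin c)) := Finset.univ.map ⟨Sum.inr, Sum.inr_injective⟩ with hA'
  set B' : Finset (V ⊕ (ι × Fin c)) := T.map ⟨Sum.inl, Sum.inl_injective⟩ with hB'
  have hcard : Fintype.card (ι × Fin c) = Fintype.card ι * c := by
    rw [Fintype.card_prod, Fintype.card_fin]
  have hfan : Fan (Adj' Adj (fun e : ι × Fin c => N e.1)) A' B' (Fintype.card ι * c) := by
    intro X' hX'
    obtain ⟨e, he⟩ : ∃ e : ι × Fin c, Sum.inr e ∉ X' := by
      by_contra hcon
      push Not at hcon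
      have : A' ⊆ X' := by
        intro v hv
        rw [hA', Finset.mem_map] at hv
        obtain ⟨e, _, rfl⟩ := hv
        exact hcon e
      have h1 := Finset.card_le_card this
      rw [hA', Finset.card_map, Finset.card_univ, hcard] at h1
      omega
    set X : Finset V := Finset.univ.filter (fun v => Sum.inl v ∈ X') with hX
    have hXc : X.card < Fintype.card ι * c := by
      refine lt_of_le_of_lt ?_ hX'
      rw [← Finset.card_map ⟨Sum.inl, Sum.inl_injective⟩ (s := X)]
      apply Finset.card_le_card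
      intro v hv
      rw [Finset.mem_map] at hv
      obtain ⟨w, hw, rfl⟩ := hv
      rw [hX, Finset.mem_filter] at hw
      exact hw.2
    have hXX : ∀ v, v ∉ X → (Sum.inl v : V ⊕ (ι × Fin c)) ∉ X' := by
      intro v hv hv'
      apply hv
      rw [hX, Finset.mem_filter]
      exact ⟨Finset.mem_univ _, hv'⟩
    obtain ⟨a, ha, haX, b, hb, hab⟩ := h e.1 X hXc
    refine ⟨Sum.inr e, ?_, he, Sum.inl b, ?_, ?_⟩
    · rw [hA', Finset.mem_map]
      exact ⟨e, Finset.mem_univ _, rfl⟩
    · rw [hB', Finset.mem_map]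
      exact ⟨b, hb, rfl⟩
    · exact Relation.ReflTransGen.head ⟨show Adj' Adj (fun e : ι × Fin c => N e.1)
        (Sum.inr e) (Sum.inl a) from ha, hXX a haX⟩ (rch_lift hXX hab)
  obtain ⟨P, hP, hPd⟩ := menger _ A' B' _ hfan
  -- heads
  have hhead : ∀ i, ∃ e : ι × Fin c, (P i).head? = some (Sum.inr e) := by
    intro i
    obtain ⟨-, -, ⟨a, ha, h1⟩, -⟩ := hP i
    rw [hA', Finset.mem_map] at ha
    obtain ⟨e, _, rfl⟩ := ha
    exact ⟨e, h1⟩
  choose σ hσ using hhead
  have hinj : Function.Injective σ := by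
    intro i j hij
    by_contra hne
    have h1 := List.mem_of_mem_head? (hσ i)
    have h2 := List.mem_of_mem_head? (hσ j)
    rw [hij] at h1
    exact hPd i j hne h1 h2
  have hbij : Function.Bijective σ := by
    rw [Fintype.bijective_iff_injective_and_card]
    exact ⟨hinj, by rw [Fintype.card_fin, hcard]⟩
  -- shape of the paths
  have hshape : ∀ e : ι × Fin c, ∃ (i : Fin (Fintype.card ι * c)) (l : List V),
      P i = Sum.inr e :: l.map Sum.inl := by
    intro e
    obtain ⟨i, rfl⟩ := hbij.2 e
    have h1 := hσ i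
    obtain ⟨hc, -⟩ := hP i
    cases hl : P i with
    | nil => rw [hl] at h1; simp at h1
    | cons x l =>
      rw [hl] at h1 hc
      simp only [List.head?_cons, Option.some.injEq] at h1
      obtain ⟨l0, hl0⟩ := chain_inl l x hc
      exact ⟨i, l0, by rw [hl, h1, hl0]⟩
  choose τ l hl using hshape
  refine ⟨l, fun e => ?_, fun e e' hne => ?_⟩
  · obtain ⟨h1, h2, -, ⟨b, hb, h4⟩, h5⟩ := hP (τ e)
    rw [hl e] at h1 h2 h4 h5
    have hne : l e ≠ [] := by
      intro h0
      rw [h0] at h4
      simp only [List.map_nil, List.getLast?_singleton, Option.some.injEq] at h4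
      rw [← h4, hB', Finset.mem_map] at hb
      obtain ⟨v, _, hv⟩ := hb
      exact Sum.inl_ne_inr hv
    obtain ⟨y, l1, hyl⟩ := List.exists_cons_of_ne_nil hne
    rw [hyl] at h1 h2 h4 h5 ⊢
    rw [List.map_cons, List.isChain_cons_cons] at h1
    rw [List.map_cons] at h4 h5
    refine ⟨?_, ?_, ⟨y, h1.1, rfl⟩, ?_, ?_⟩
    · have h6 := h1.2
      rw [← List.map_cons, List.isChain_map] at h6
      exact h6
    · exact (List.nodup_cons.1 h2).2.of_map
    · rw [List.getLast?_cons_cons, ← List.map_cons, List.getLast?_map] at h4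
      cases h6 : (y :: l1).getLast? with
      | none => rw [h6] at h4; simp at h4
      | some v =>
        rw [h6] at h4
        simp only [Option.map_some, Option.some.injEq] at h4
        rw [← h4, hB', Finset.mem_map] at hb
        obtain ⟨w, hw, hwv⟩ := hb
        refine ⟨v, ?_, rfl⟩
        rw [← Sum.inl_injective hwv]
        exact hw
    · intro v hv hvT
      apply h5 (Sum.inl v)
      · rw [List.dropLast_cons_cons, ← List.map_cons, ← List.map_dropLast]
        exact List.mem_cons_of_mem _ (List.mem_map_of_mem hv)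
      · rw [hB', Finset.mem_map]
        exact ⟨v, hvT, rfl⟩
  · intro v hv hv'
    have h1 : τ e ≠ τ e' := by
      intro h0
      have h2 := hl e
      rw [h0, hl e'] at h2
      simp only [List.cons.injEq, Sum.inr.injEq] at h2
      exact hne h2.1.symm
    apply hPd _ _ h1 (a := Sum.inl v)
    · rw [hl e]
      exact List.mem_cons_of_mem _ (List.mem_map_of_mem hv)
    · rw [hl e']
      exact List.mem_cons_of_mem _ (List.mem_map_of_mem hv')

end Pool.Agent.Lib.MP_ed9a33_co
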